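import Pool.Agent.V11216.IS.Core

namespace Pool.Agent.Results.MP_eb524a_co.ExactDisc

open V11216.IS

/-- For every `n ≥ 1` the minimum of `disc(S)` over the strategies of length `n` exists and is
exactly `2 ^ (1 - 1/⌈n/2⌉)`. -/
theorem result (n : ℕ) (hn : 1 ≤ n) :
    IsLeast {D : ℝ | ∃ S, IsStrategy n S ∧ D = discS n S}
      ((2 : ℝ) ^ (1 - 1 / (((n + 1) / 2 : ℕ) : ℝ))) :=
  disc_isLeast n hn

end Pool.Agent.Results.MP_eb524a_co.ExactDisc
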