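import Pool.Agent.V11216.IS.Core

open Filter

namespace Pool.Agent.Results.MP_eb524a_co.LimsupSeparation

open V11216.IS

/-- For every infinite strategy `S`, `limsup n (disc_n(S) - disc(n)) ≥ 4 ln 2 - 2 > 0`. -/
theorem result (S : ℕ → List ℝ) (hS : IsInfStrategy S) (c : ℝ)
    (hc : c < 4 * Real.log 2 - 2) :
    ∃ᶠ n : ℕ in atTop, c ≤ (n : ℝ) * (discS n S - disc n) :=
  limsup_part S hS c hc

end Pool.Agent.Results.MP_eb524a_co.LimsupSeparation
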